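import Pool.Agent.Lib.MP_49fa77_co.H30.All3

/-!
# Asymptotics of the numbers `d_T(n)`

With `c = (2 √3 - π) / (3 √3 / 2) = 0.124…` one has `d_T(n) = 1 - c / n - Θ(n ^ (-7/6))`, with an
explicit upper bound for every `n ≥ 1`.
-/

namespace Pool.Agent.Results.MP_49fa77_co.Asymptotics

open FT58 Real

theorem result :
    ∃ A B : ℝ, 0 < A ∧ 0 < B ∧
      (∀ n : ℕ, 1 ≤ n →
        ENNReal.ofReal (1 - (2 * √3 - π) / (3 * √3 / 2 * n) - A * (n : ℝ) ^ (-(7 / 6) : ℝ)) ≤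
          dT (EuclideanSpace ℝ (Fin 2)) n ∧
        dT (EuclideanSpace ℝ (Fin 2)) n ≤
          ENNReal.ofReal (1 - (2 * √3 - π) / (3 * √3 / 2 * n + 4))) ∧
      ∃ N : ℕ, ∀ n : ℕ, N ≤ n →
        dT (EuclideanSpace ℝ (Fin 2)) n ≤
          ENNReal.ofReal (1 - (2 * √3 - π) / (3 * √3 / 2 * n) - B * (n : ℝ) ^ (-(7 / 6) : ℝ)) :=
  FT58.AS.H30.asymptotics

end Pool.Agent.Results.MP_49fa77_co.Asymptotics
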