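import Pool.Agent.Lib.MP_49fa77_co.Main5

/-!
# Densest translative packings of unions of at most five unit disks

For `n = 2, 3, 4, 5` the number `d_T(n)` is the maximum over `s` in `[0, 2]` of the explicit
function `chainDensity n`, and it is attained by a chain of `n` unit disks with a spacing `s` in
`(0, 2)`. This is L. Fejes Tóth's conjecture.
-/

namespace Pool.Agent.Results.MP_49fa77_co.ChainsUpToFive

open FT58 MeasureTheory Set

theorem result (n : ℕ) (hn : 2 ≤ n) (hn5 : n ≤ 5) :
    ∃ s : ℝ, 0 < s ∧ s < 2 ∧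
      (∀ t ∈ Icc (0 : ℝ) 2, chainDensity n t ≤ chainDensity n s) ∧
      dT (EuclideanSpace ℝ (Fin 2)) n = ENNReal.ofReal (chainDensity n s) ∧
      ∀ p u : EuclideanSpace ℝ (Fin 2), ‖u‖ = 1 →
        transDensity (unitDisks (chain n p u s)) = dT (EuclideanSpace ℝ (Fin 2)) n :=
  main_plane' (by omega)

end Pool.Agent.Results.MP_49fa77_co.ChainsUpToFive
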