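import Pool.Agent.Lib.MP_49fa77_co.H30.All2

/-!
# Translative packings of collinear and of tree-like unions of unit disks

For every `n ≥ 2` the translative packing density of a union of `n` unit disks whose centres lie
on a line, or whose overlap graph (centres at distance less than `2`) has no cycle, is at most the
maximum over `s` in `[0, 2]` of the explicit function `chainDensity n`, and this maximum is
attained by a chain.
-/

namespace Pool.Agent.Results.MP_49fa77_co.TreeLikeUnions

open FT58 FT58.AS.H30 MeasureTheory Set

theorem result (n : ℕ) (hn : 2 ≤ n) :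
    ∃ s : ℝ, 0 < s ∧ s < 2 ∧
      (∀ t ∈ Icc (0 : ℝ) 2, chainDensity n t ≤ chainDensity n s) ∧
      (∀ p u : EuclideanSpace ℝ (Fin 2), ‖u‖ = 1 →
        transDensity (unitDisks (chain n p u s)) = ENNReal.ofReal (chainDensity n s)) ∧
      ∀ c : Fin n → EuclideanSpace ℝ (Fin 2),
        (Collinear ℝ (range c) ∨ (overlapGraph c).IsAcyclic) →
        transDensity (unitDisks c) ≤ ENNReal.ofReal (chainDensity n s) :=
  chains_final hn

end Pool.Agent.Results.MP_49fa77_co.TreeLikeUnions
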